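import Pool.Agent.H957.CX.All
import Pool.Agent.H957.CX.Tr
import Pool.Agent.H957.CX.PMP

/-!
# Schiffer's conjecture is false for convex domains

There is a bounded, strictly convex plane domain `Ω`, bounded by a real analytic Jordan curve and
different from a disc, on which Schiffer's overdetermined Neumann problem
`-Δu = lam u` in `Ω`, `∂u/∂n = 0` and `u = c` on `∂Ω` has a nontrivial solution (in the weak form of the
frozen statement); equivalently `Ω` is a convex set without the Pompeiu property: the integral of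
the function `x ↦ cos x₀` over every congruent copy of `Ω` is zero.

The domain is `f (D)`, `D` the unit disc, `f` holomorphic and injective in a larger disc; it is
invariant under the rotations of order `1897` and its boundary lies between two concentric circles
whose radii differ by the factor `(1 + 10⁻⁶)/(1 - 10⁻⁶)`.

The library's counterexample (`n = 49031`, `ρ = 60416.75`, one propagating mode) is not convex. For a
convex domain the amplitude `X` of the perturbation has to be smaller than `ρ/n²`, which needs a much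
better coincidence of zeros; with one propagating mode (`n > ρ/2`) no such coincidence was found. Here
`n = 1897`, `ρ = 8583.616...`, `J_1(ρ) = 0` and `J_n(ρ)/J_{n+1}(ρ) = -3.379 · 10⁻⁷`, and four modes
`J_n, J_{2n}, J_{3n}, J_{4n}` propagate. The amplitude is determined by
`X² (n/(4ρ) + 1/(8 a₂)) ≈ a₁`, `a_m = -J_{mn}(ρ)/J_{mn+1}(ρ)`: the second harmonic, which is nearly
resonant (`a₂ = .0811`), makes the amplitude small, `X ≈ 4.6 · 10⁻⁴`, and `X n²/ρ ≈ .19 < 1`.
-/

set_option autoImplicit false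

open Set MeasureTheory

namespace Pool.Agent.Results.MP_83fd13_an.ConvexCounterexample

/-- The Euclidean plane. -/
abbrev Plane := EuclideanSpace ℝ (Fin 2)

/-- The conditions on the domain in the frozen statement: a bounded simply connected domain whose
boundary is a Jordan curve, which is locally the region above the graph of a Lipschitz function. -/
def IsDomain (Ω : Set Plane) : Prop :=
  IsOpen Ω ∧ Bornology.IsBounded Ω ∧ IsConnected Ω ∧ SimplyConnectedSpace Ω ∧
    Nonempty (frontier Ω ≃ₜ Metric.sphere (0 : Plane) 1) ∧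
    ∀ p ∈ frontier Ω, ∃ e f : Plane, ‖e‖ = 1 ∧ ‖f‖ = 1 ∧ @inner ℝ Plane _ e f = 0 ∧
        ∃ r : ℝ, 0 < r ∧ ∃ K : NNReal, ∃ g : ℝ → ℝ, LipschitzWith K g ∧
          ∀ x ∈ Metric.ball p r, (x ∈ Ω ↔ g (@inner ℝ Plane _ x e) < @inner ℝ Plane _ x f)

/-- `(lam, c, u)` is a nontrivial solution of problem (S) on `Ω`, in the weak form of the frozen
statement: `-Δu = lam u` in `Ω`, `∂u/∂n = 0` and `u = c` on the boundary; `G` is the gradient. -/
def Solution (Ω : Set Plane) (lam c : ℝ) (u : Plane → ℝ) (G : Plane → Plane) : Prop :=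
  MemLp u 2 (volume.restrict Ω) ∧ MemLp G 2 (volume.restrict Ω) ∧
    (∀ φ : Plane → ℝ, ContDiff ℝ 1 φ → HasCompactSupport φ → ∀ v : Plane,
      ∫ x in Ω, (u x - c) * (fderiv ℝ φ x v) = - ∫ x in Ω, @inner ℝ Plane _ (G x) v * φ x) ∧
    (∀ φ : Plane → ℝ, ContDiff ℝ 1 φ → HasCompactSupport φ →
      ∫ x in Ω, fderiv ℝ φ x (G x) = lam * ∫ x in Ω, u x * φ x) ∧
    ¬ (u =ᵐ[volume.restrict Ω] 0)

/-- `Ω` is the image of the unit disc under a function `f` which is holomorphic and injective in a
larger disc, and it is invariant under the rotations of order `1897`. -/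
def AnalyticSymmetric (Ω : Set Plane) : Prop :=
  ∃ (f : ℂ → ℂ) (r : ℝ), 1 < r ∧ DifferentiableOn ℂ f (Metric.ball 0 r) ∧
      InjOn f (Metric.ball 0 r) ∧
      Ω = Complex.orthonormalBasisOneI.repr '' (f '' Metric.ball 0 1) ∧
      ∀ ω : ℂ, ω ^ 1897 = 1 → (fun z => ω * z) '' (f '' Metric.ball 0 1) = f '' Metric.ball 0 1

/-- **Schiffer's conjecture is false for convex domains.** -/
theorem result : ∃ Ω : Set Plane, IsDomain Ω ∧
    -- convexity
    Convex ℝ Ω ∧ StrictConvex ℝ (closure Ω) ∧
    -- not a disc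
    (∀ (a : Plane) (s : ℝ), Ω ≠ Metric.ball a s) ∧
    -- the overdetermined problem (S)
    (∃ (lam c : ℝ) (u : Plane → ℝ) (G : Plane → Plane), 0 < lam ∧ c ≠ 0 ∧
      Solution Ω lam c u G) ∧
    -- the Pompeiu property fails
    (∀ σ : Plane ≃ᵢ Plane, ∫ x in σ '' Ω, Real.cos (x 0) = 0) ∧
    -- the boundary is close to a circle
    (∃ ρ : ℝ, 0 < ρ ∧ Metric.ball 0 (ρ * (1 - 1 / 10 ^ 6)) ⊆ Ω ∧
      Ω ⊆ Metric.ball 0 (ρ * (1 + 1 / 10 ^ 6))) ∧
    -- the boundary is real analytic, the domain has a rotational symmetry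
    AnalyticSymmetric Ω := by
  obtain ⟨ρ, r, f, Om, hD, hS⟩ := Pool.Agent.H957.CX.all
  obtain ⟨p, q⟩ := Pool.Agent.H957.CX.transfer hD hS
  have hdom := hD.dom
  refine ⟨Pool.Agent.H957.CX.JJ '' Om, ⟨p.op, p.bd, p.conn, p.sc, p.fr, p.lip⟩, p.cvx, p.scvx, p.nd,
    q, Pool.Agent.H957.CX.PPMP.main ρ r f Om hD hS, p.near, f, r, hD.r1, hD.diff, hD.inj, ?_, ?_⟩
  · rw [hdom]
    rfl
  · intro ω hω
    have h1 := hD.rot ω hω
    rwa [hdom] at h1

end Pool.Agent.Results.MP_83fd13_an.ConvexCounterexample
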