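import Pool.Agent.H812.SO.MQ3

/-!
# Many counterexamples to Schiffer's conjecture near every large disc with `J_1(ρ) = 0`

The disc of radius `ρ` carries a radial solution of problem (S) with `lam = 1` exactly if
`J_1(ρ) = 0`.  We prove: `J_1` has arbitrarily large zeros, and for EVERY zero `ρ ≥ 10 ^ 30` of `J_1` and
every `η` with `10 ^ 5 ρ ^ (-1/4) ≤ η ≤ 1 / 200` there are at least `η ^ 4 ρ / 10 ^ 20` pairwise
non-similar counterexamples to Schiffer's conjecture, with the eigenvalue `1`, at `C¹` distance at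
most `η` from this disc.  So there are counterexamples near all large discs of this kind, at a relative
`C¹` distance at most `10 ^ 5 ρ ^ (-1/4)`, which tends to zero (and also in `C ^ {1, α}`, `α < 1/4`), and
for a fixed tolerance their number is at least a constant times `ρ`.  The symmetry group of each of them (the
group of all isometries of the plane which preserve it) is a dihedral group of order `2 n`, with
`4/5 ≤ n / ρ ≤ 41/50`, and the numbers `n` are different.

The library of earlier runs has one counterexample (`S05252`), found near one numerically computed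
coincidence of zeros of two Bessel functions, `ρ = 60416.75...`, `n = 49031`.  Here the coincidences
are found without computation: for `n` near `φ ρ / 2`, `φ` the golden ratio, five steps of the
recurrence `J_{m-1} + J_{m+1} = (2 m / ρ) J_m` are minus a slow rotation, so that
`-J_n(ρ) / J_{n+1}(ρ)` is in `[ε, 3 ε]` for at least one `n` in every window of length `10 ^ 6 / ε`.
The counterexamples for different `n` are not similar because their symmetry groups have the orders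
`2 n`.
-/

set_option autoImplicit false

open MeasureTheory

namespace Pool.Agent.Results.MP_83fd13_an.NearDiscs

/-- The Euclidean plane. -/
abbrev Plane : Type := EuclideanSpace ℝ (Fin 2)

/-- The Bessel function `J_m` of the first kind, by its power series. -/
noncomputable def J (m : ℕ) (x : ℝ) : ℝ :=
  ∑' k : ℕ, (-1) ^ k * (x / 2) ^ (2 * k + m) / (k.factorial * (k + m).factorial)

/-- A bounded simply connected domain whose boundary is a Lipschitz curve homeomorphic to the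
circle (the standing convention of the problem). -/
structure PlaneDomain (Ω : Set Plane) : Prop where
  isOpen : IsOpen Ω
  isBounded : Bornology.IsBounded Ω
  isConnected : IsConnected Ω
  simplyConnected : SimplyConnectedSpace Ω
  jordan : Nonempty (frontier Ω ≃ₜ Metric.sphere (0 : Plane) 1)
  lipschitz : ∀ p ∈ frontier Ω, ∃ e f : Plane, ‖e‖ = 1 ∧ ‖f‖ = 1 ∧ @inner ℝ Plane _ e f = 0 ∧
    ∃ r : ℝ, 0 < r ∧ ∃ K : NNReal, ∃ g : ℝ → ℝ, LipschitzWith K g ∧
      ∀ x ∈ Metric.ball p r, (x ∈ Ω ↔ g (@inner ℝ Plane _ x e) < @inner ℝ Plane _ x f)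

/-- The overdetermined problem `-Δu = lam u` in `Ω`, `∂u/∂n = 0` and `u = c` on `∂Ω` has a
nontrivial weak solution (as in the frozen statements; `G` is the gradient of `u`), with a nonzero
constant `c`. -/
def Schiffer (Ω : Set Plane) (lam : ℝ) : Prop :=
  ∃ (c : ℝ) (u : Plane → ℝ) (G : Plane → Plane), c ≠ 0 ∧
    MemLp u 2 (volume.restrict Ω) ∧ MemLp G 2 (volume.restrict Ω) ∧
    (∀ φ : Plane → ℝ, ContDiff ℝ 1 φ → HasCompactSupport φ → ∀ v : Plane,
      ∫ x in Ω, (u x - c) * (fderiv ℝ φ x v) = - ∫ x in Ω, @inner ℝ Plane _ (G x) v * φ x) ∧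
    (∀ φ : Plane → ℝ, ContDiff ℝ 1 φ → HasCompactSupport φ →
      ∫ x in Ω, fderiv ℝ φ x (G x) = lam * ∫ x in Ω, u x * φ x) ∧
    ¬ (u =ᵐ[volume.restrict Ω] 0)

/-- `Ω` is an open disc. -/
def IsDisc (Ω : Set Plane) : Prop := ∃ (a : Plane) (r : ℝ), Ω = Metric.ball a r

/-- The identification of `ℂ` with the plane. -/
noncomputable def toPlane (z : ℂ) : Plane := !₂[z.re, z.im]

/-- `Ω` is a counterexample to Schiffer's conjecture, with the eigenvalue `1`; the integral of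
`cos x₀` over every isometric image of it is zero, so that it fails the Pompeiu property. -/
structure Counterexample (Ω : Set Plane) : Prop where
  domain : PlaneDomain Ω
  solution : Schiffer Ω 1
  notDisc : ¬ IsDisc Ω
  pompeiu : ∀ σ : Plane ≃ᵢ Plane, ∫ x in σ '' Ω, Real.cos (x 0) = 0

/-- `Ω` is `η`-close in `C¹` to the disc of radius `ρ` about `0`: it is the image of the unit disc
under a function `f`, injective and holomorphic in a larger disc, with `|f(z) - ρ z| ≤ η`,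
`|f'(z) - ρ| ≤ η ρ`; and the Lipschitz constant of `f'` is at most `300 η ρ ^ 2`. -/
structure NearDisc (η ρ : ℝ) (Ω : Set Plane) : Prop where
  map : ∃ (r : ℝ) (f : ℂ → ℂ), 1 < r ∧ DifferentiableOn ℂ f (Metric.ball 0 r) ∧
    Set.InjOn f (Metric.ball 0 r) ∧ Ω = toPlane '' (f '' Metric.ball 0 1) ∧
    (∀ z ∈ Metric.ball (0 : ℂ) r, ‖f z - ρ * z‖ ≤ η ∧ ‖deriv f z - ρ‖ ≤ η * ρ) ∧
    ∀ z w : ℂ, ‖z‖ ≤ 1 → ‖w‖ ≤ 1 → ‖deriv f z - deriv f w‖ ≤ 300 * η * ρ ^ 2 * ‖z - w‖
  inner : Metric.ball 0 (ρ - η) ⊆ Ω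
  outer : Ω ⊆ Metric.ball 0 (ρ + η)

/-- `Ω'` is the image of `Ω` under a similarity of the plane. -/
def Similar (Ω Ω' : Set Plane) : Prop :=
  ∃ (k : ℝ) (T : Plane ≃ₗᵢ[ℝ] Plane) (b : Plane), 0 < k ∧ (fun x => k • T x + b) '' Ω = Ω'

/-- The symmetry group of `Ω` (all isometries of the plane which preserve `Ω`) is the dihedral group of
order `2 n` generated by the rotation about `0` by `2 π / n` and the reflection in the real axis:
an isometry `σ` preserves `Ω` exactly if `σ z = ω z` or `σ z = ω z̄` with `ω ^ n = 1`. -/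
def DihedralSymmetry (n : ℕ) (Ω : Set Plane) : Prop :=
  ∃ D : Set ℂ, Ω = toPlane '' D ∧ ∀ σ : ℂ ≃ᵢ ℂ, σ '' D = D ↔
    ∃ ω : ℂ, ω ^ n = 1 ∧ ((∀ z, σ z = ω * z) ∨ ∀ z, σ z = ω * (starRingEnd ℂ) z)

private theorem conv_dom {Ω : Set Plane} (h : Pool.Agent.H812.SF.PlaneDomain Ω) :
    PlaneDomain Ω := ⟨h.1, h.2, h.3, h.4, h.5, h.6⟩

private theorem conv {η ρ : ℝ} {Ω : Set Plane} (h : Pool.Agent.H812.SF.Ctr η ρ Ω) :
    Counterexample Ω ∧ NearDisc η ρ Ω := by
  obtain ⟨h1, h2, h2', h3, ⟨r, f, g1, g2, g3, g4, g5, g6⟩, h5, h6⟩ := h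
  exact ⟨⟨conv_dom h1, h2, h3, h2'⟩, ⟨r, f, g1, g2, g3, g6, g4, g5⟩, h5, h6⟩

/-- **Schiffer's conjecture fails near every large disc with `J_1(ρ) = 0`, and the number of
non-similar counterexamples at `C¹` distance `η` is at least `η ^ 4 ρ / 10 ^ 20`.** Their symmetry groups are
dihedral groups of different orders `2 n`. -/
theorem result :
    (∀ R : ℝ, ∃ ρ : ℝ, R ≤ ρ ∧ J 1 ρ = 0) ∧
    ∀ ρ η : ℝ, 10 ^ 30 ≤ ρ → J 1 ρ = 0 → 10 ^ 5 / ρ ^ (1 / 4 : ℝ) ≤ η → η ≤ 1 / 200 →
      ∃ (n : ℕ → ℕ) (Ω : ℕ → Set Plane),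
        (∀ k : ℕ, (k : ℝ) ≤ η ^ 4 * ρ / 10 ^ 20 → 4 / 5 * ρ ≤ n k ∧ n k ≤ 41 / 50 * ρ ∧
          Counterexample (Ω k) ∧ NearDisc η ρ (Ω k) ∧ DihedralSymmetry (n k) (Ω k)) ∧
        ∀ j k : ℕ, (j : ℝ) ≤ η ^ 4 * ρ / 10 ^ 20 → (k : ℝ) ≤ η ^ 4 * ρ / 10 ^ 20 → j ≠ k →
          n j ≠ n k ∧ ¬ Similar (Ω j) (Ω k) := by
  refine ⟨Pool.Agent.H812.SF.pJ1Z, ?_⟩
  intro ρ η h1 h2 h3 h4
  obtain ⟨n, D, h5, h6⟩ := Pool.Agent.H812.SO.pMQ3 ρ η h1 h2 h3 h4
  refine ⟨n, fun k => toPlane '' D k, fun k hk => ?_, h6⟩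
  obtain ⟨a1, a2, a3, a4⟩ := h5 k hk
  exact ⟨a1, a2, (conv a4).1, (conv a4).2, D k, rfl, a3⟩

end Pool.Agent.Results.MP_83fd13_an.NearDiscs
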