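import Pool.Agent.H812.SO.Fin

/-!
# A criterion for counterexamples to Schiffer's conjecture

The disc of radius `ρ` carries a radial solution of problem (S) with `lam = 1` exactly if
`J_1(ρ) = 0`; the linearization of (S) at it is degenerate in the `n`-th Fourier mode exactly if
`J_n(ρ) = 0` (which does not happen, by Siegel's theorem).  We prove that near-degeneracy with the right
sign is enough: if `ρ ≥ 10 ^ 4` is a zero of `J_1`, `4/5 ≤ n / ρ ≤ 41/50` and
`0 < κ = -J_n(ρ) / J_{n+1}(ρ) ≤ 31 / 10 ^ 10`, there is a counterexample to Schiffer's conjecture with the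
eigenvalue `1`, whose symmetry group is the dihedral group of order `2 n`, at `C¹` distance at most
`100 √κ` from the disc.

The library of earlier runs has this for one pair `(ρ, n)` found by a computer (`S05252`); its proof is
adapted to arbitrary parameters and arbitrarily small `κ`.
-/

set_option autoImplicit false

open MeasureTheory

namespace Pool.Agent.Results.MP_83fd13_an.ResonanceCriterion

/-- The Euclidean plane. -/
abbrev Plane : Type := EuclideanSpace ℝ (Fin 2)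

/-- The Bessel function `J_m` of the first kind, by its power series. -/
noncomputable def J (m : ℕ) (x : ℝ) : ℝ :=
  ∑' k : ℕ, (-1) ^ k * (x / 2) ^ (2 * k + m) / (k.factorial * (k + m).factorial)

/-- A bounded simply connected domain whose boundary is a Lipschitz curve homeomorphic to the
circle (the standing convention of the problem). -/
structure PlaneDomain (Ω : Set Plane) : Prop where
  isOpen : IsOpen Ω
  isBounded : Bornology.IsBounded Ω
  isConnected : IsConnected Ω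
  simplyConnected : SimplyConnectedSpace Ω
  jordan : Nonempty (frontier Ω ≃ₜ Metric.sphere (0 : Plane) 1)
  lipschitz : ∀ p ∈ frontier Ω, ∃ e f : Plane, ‖e‖ = 1 ∧ ‖f‖ = 1 ∧ @inner ℝ Plane _ e f = 0 ∧
    ∃ r : ℝ, 0 < r ∧ ∃ K : NNReal, ∃ g : ℝ → ℝ, LipschitzWith K g ∧
      ∀ x ∈ Metric.ball p r, (x ∈ Ω ↔ g (@inner ℝ Plane _ x e) < @inner ℝ Plane _ x f)

/-- The overdetermined problem `-Δu = lam u` in `Ω`, `∂u/∂n = 0` and `u = c` on `∂Ω` has a
nontrivial weak solution (as in the frozen statements; `G` is the gradient of `u`), with a nonzero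
constant `c`. -/
def Schiffer (Ω : Set Plane) (lam : ℝ) : Prop :=
  ∃ (c : ℝ) (u : Plane → ℝ) (G : Plane → Plane), c ≠ 0 ∧
    MemLp u 2 (volume.restrict Ω) ∧ MemLp G 2 (volume.restrict Ω) ∧
    (∀ φ : Plane → ℝ, ContDiff ℝ 1 φ → HasCompactSupport φ → ∀ v : Plane,
      ∫ x in Ω, (u x - c) * (fderiv ℝ φ x v) = - ∫ x in Ω, @inner ℝ Plane _ (G x) v * φ x) ∧
    (∀ φ : Plane → ℝ, ContDiff ℝ 1 φ → HasCompactSupport φ →
      ∫ x in Ω, fderiv ℝ φ x (G x) = lam * ∫ x in Ω, u x * φ x) ∧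
    ¬ (u =ᵐ[volume.restrict Ω] 0)

/-- `Ω` is an open disc. -/
def IsDisc (Ω : Set Plane) : Prop := ∃ (a : Plane) (r : ℝ), Ω = Metric.ball a r

/-- The identification of `ℂ` with the plane. -/
noncomputable def toPlane (z : ℂ) : Plane := !₂[z.re, z.im]

/-- `Ω` is a counterexample to Schiffer's conjecture, with the eigenvalue `1`; the integral of
`cos x₀` over every isometric image of it is zero, so that it fails the Pompeiu property. -/
structure Counterexample (Ω : Set Plane) : Prop where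
  domain : PlaneDomain Ω
  solution : Schiffer Ω 1
  notDisc : ¬ IsDisc Ω
  pompeiu : ∀ σ : Plane ≃ᵢ Plane, ∫ x in σ '' Ω, Real.cos (x 0) = 0

/-- `Ω` is `η`-close in `C¹` to the disc of radius `ρ` about `0`: it is the image of the unit disc
under a function `f`, injective and holomorphic in a larger disc, with `|f(z) - ρ z| ≤ η`,
`|f'(z) - ρ| ≤ η ρ`; and the Lipschitz constant of `f'` is at most `300 η ρ ^ 2`. -/
structure NearDisc (η ρ : ℝ) (Ω : Set Plane) : Prop where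
  map : ∃ (r : ℝ) (f : ℂ → ℂ), 1 < r ∧ DifferentiableOn ℂ f (Metric.ball 0 r) ∧
    Set.InjOn f (Metric.ball 0 r) ∧ Ω = toPlane '' (f '' Metric.ball 0 1) ∧
    (∀ z ∈ Metric.ball (0 : ℂ) r, ‖f z - ρ * z‖ ≤ η ∧ ‖deriv f z - ρ‖ ≤ η * ρ) ∧
    ∀ z w : ℂ, ‖z‖ ≤ 1 → ‖w‖ ≤ 1 → ‖deriv f z - deriv f w‖ ≤ 300 * η * ρ ^ 2 * ‖z - w‖
  inner : Metric.ball 0 (ρ - η) ⊆ Ω
  outer : Ω ⊆ Metric.ball 0 (ρ + η)

/-- The symmetry group of `Ω` (all isometries of the plane which preserve `Ω`) is the dihedral group of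
order `2 n` generated by the rotation about `0` by `2 π / n` and the reflection in the real axis:
an isometry `σ` preserves `Ω` exactly if `σ z = ω z` or `σ z = ω z̄` with `ω ^ n = 1`. -/
def DihedralSymmetry (n : ℕ) (Ω : Set Plane) : Prop :=
  ∃ D : Set ℂ, Ω = toPlane '' D ∧ ∀ σ : ℂ ≃ᵢ ℂ, σ '' D = D ↔
    ∃ ω : ℂ, ω ^ n = 1 ∧ ((∀ z, σ z = ω * z) ∨ ∀ z, σ z = ω * (starRingEnd ℂ) z)

private theorem conv_dom {Ω : Set Plane} (h : Pool.Agent.H812.SF.PlaneDomain Ω) :
    PlaneDomain Ω := ⟨h.1, h.2, h.3, h.4, h.5, h.6⟩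

private theorem conv {η ρ : ℝ} {Ω : Set Plane} (h : Pool.Agent.H812.SF.Ctr η ρ Ω) :
    Counterexample Ω ∧ NearDisc η ρ Ω := by
  obtain ⟨h1, h2, h2', h3, ⟨r, f, g1, g2, g3, g4, g5, g6⟩, h5, h6⟩ := h
  exact ⟨⟨conv_dom h1, h2, h3, h2'⟩, ⟨r, f, g1, g2, g3, g6, g4, g5⟩, h5, h6⟩

/-- **Near-resonance of `J_1` and `J_n` with the right sign gives a counterexample to Schiffer's
conjecture, whose symmetry group is the dihedral group of order `2 n`.** -/
theorem result (ρ κ : ℝ) (n : ℕ) (h1 : 10 ^ 4 ≤ ρ) (h2 : J 1 ρ = 0) (h3 : 4 / 5 * ρ ≤ n)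
    (h4 : n ≤ 41 / 50 * ρ) (h5 : κ = -(J n ρ / J (n + 1) ρ)) (h6 : 0 < κ)
    (h7 : κ ≤ 31 / 10 ^ 10) :
    ∃ Ω : Set Plane, Counterexample Ω ∧ NearDisc (100 * Real.sqrt κ) ρ Ω ∧
      DihedralSymmetry n Ω := by
  subst h5
  obtain ⟨D, hR, h⟩ := Pool.Agent.H812.SO.pNR3 ρ n h1 h3 h4 h2 h6 h7
  exact ⟨_, (conv h).1, (conv h).2, D, rfl, hR⟩

end Pool.Agent.Results.MP_83fd13_an.ResonanceCriterion
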