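import Pool.Agent.H812.SO.Ord3

/-!
# Every large dihedral group is the symmetry group of many counterexamples to Schiffer's conjecture

For every `n ≥ 10 ^ 24` and every `η` with `4000 / n ^ (1/4) ≤ η ≤ 1/200` there are at least `η ^ 4 n / 10 ^ 16`
zeros `ρ` of `J_1` in the window `4/5 ≤ n/ρ ≤ 41/50` for which there is a counterexample to Schiffer's conjecture,
with the eigenvalue `1`, at `C¹` distance at most `η` from the disc of radius `ρ`, whose symmetry group (the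
group of all isometries of the plane which preserve it) is the dihedral group of order `2 n`.  They are
pairwise non-congruent.  With `η = 4000 / n ^ (1/4)`: for every `n ≥ 10 ^ 24` there is a counterexample with this
symmetry group at relative `C¹` distance `O(n ^ (-1/4))` from a disc; for fixed `η` the number of the discs is at
least a constant times `n`.

Proof. By the method of `ResonanceCriterion` it suffices to find zeros `ρ` of `J_1` with
`4/5 ≤ n/ρ ≤ 41/50` and `0 < -J_n(ρ)/J_{n+1}(ρ)` small, for instance zeros `ρ` of `J_1` slightly larger than a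
zero of `J_n`.  By Sturm's comparison theorem the distance of consecutive zeros of `J_n` near `t` is
`π (1 - (n² - 1/4)/t²)^(-1/2)` up to `O(1/n)`.  Near `T = 12 n / √95` seven such distances are `12 π`, and
twelve distances of the zeros of `J_1` are `12 π + O(1/n²)`.  As the difference is monotone, for `t` in
`[T - 2 z, T - z]` the gap from a zero of `J_n` to a zero of `J_1` decreases by at least `49 z/n` and at most
`260 z/n` in each step of seven, respectively twelve, zeros, so that in each interval of length `7 n/z` there is a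
gap which is positive and at most `260 z/n`; take `z = η ^ 2 n / 5200000`.
-/

set_option autoImplicit false

open MeasureTheory

namespace Pool.Agent.Results.MP_83fd13_an.SymmetryGroups

/-- The Euclidean plane. -/
abbrev Plane : Type := EuclideanSpace ℝ (Fin 2)

/-- The Bessel function `J_m` of the first kind, by its power series. -/
noncomputable def J (m : ℕ) (x : ℝ) : ℝ :=
  ∑' k : ℕ, (-1) ^ k * (x / 2) ^ (2 * k + m) / (k.factorial * (k + m).factorial)

/-- A bounded simply connected domain whose boundary is a Lipschitz curve homeomorphic to the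
circle (the standing convention of the problem). -/
structure PlaneDomain (Ω : Set Plane) : Prop where
  isOpen : IsOpen Ω
  isBounded : Bornology.IsBounded Ω
  isConnected : IsConnected Ω
  simplyConnected : SimplyConnectedSpace Ω
  jordan : Nonempty (frontier Ω ≃ₜ Metric.sphere (0 : Plane) 1)
  lipschitz : ∀ p ∈ frontier Ω, ∃ e f : Plane, ‖e‖ = 1 ∧ ‖f‖ = 1 ∧ @inner ℝ Plane _ e f = 0 ∧
    ∃ r : ℝ, 0 < r ∧ ∃ K : NNReal, ∃ g : ℝ → ℝ, LipschitzWith K g ∧
      ∀ x ∈ Metric.ball p r, (x ∈ Ω ↔ g (@inner ℝ Plane _ x e) < @inner ℝ Plane _ x f)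

/-- The overdetermined problem `-Δu = lam u` in `Ω`, `∂u/∂n = 0` and `u = c` on `∂Ω` has a
nontrivial weak solution (as in the frozen statements; `G` is the gradient of `u`), with a nonzero
constant `c`. -/
def Schiffer (Ω : Set Plane) (lam : ℝ) : Prop :=
  ∃ (c : ℝ) (u : Plane → ℝ) (G : Plane → Plane), c ≠ 0 ∧
    MemLp u 2 (volume.restrict Ω) ∧ MemLp G 2 (volume.restrict Ω) ∧
    (∀ φ : Plane → ℝ, ContDiff ℝ 1 φ → HasCompactSupport φ → ∀ v : Plane,
      ∫ x in Ω, (u x - c) * (fderiv ℝ φ x v) = - ∫ x in Ω, @inner ℝ Plane _ (G x) v * φ x) ∧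
    (∀ φ : Plane → ℝ, ContDiff ℝ 1 φ → HasCompactSupport φ →
      ∫ x in Ω, fderiv ℝ φ x (G x) = lam * ∫ x in Ω, u x * φ x) ∧
    ¬ (u =ᵐ[volume.restrict Ω] 0)

/-- `Ω` is an open disc. -/
def IsDisc (Ω : Set Plane) : Prop := ∃ (a : Plane) (r : ℝ), Ω = Metric.ball a r

/-- The identification of `ℂ` with the plane. -/
noncomputable def toPlane (z : ℂ) : Plane := !₂[z.re, z.im]

/-- `Ω` is a counterexample to Schiffer's conjecture, with the eigenvalue `1`; the integral of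
`cos x₀` over every isometric image of it is zero, so that it fails the Pompeiu property. -/
structure Counterexample (Ω : Set Plane) : Prop where
  domain : PlaneDomain Ω
  solution : Schiffer Ω 1
  notDisc : ¬ IsDisc Ω
  pompeiu : ∀ σ : Plane ≃ᵢ Plane, ∫ x in σ '' Ω, Real.cos (x 0) = 0

/-- `Ω` is `η`-close in `C¹` to the disc of radius `ρ` about `0`: it is the image of the unit disc
under a function `f`, injective and holomorphic in a larger disc, with `|f(z) - ρ z| ≤ η`,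
`|f'(z) - ρ| ≤ η ρ`; and the Lipschitz constant of `f'` is at most `300 η ρ ^ 2`. -/
structure NearDisc (η ρ : ℝ) (Ω : Set Plane) : Prop where
  map : ∃ (r : ℝ) (f : ℂ → ℂ), 1 < r ∧ DifferentiableOn ℂ f (Metric.ball 0 r) ∧
    Set.InjOn f (Metric.ball 0 r) ∧ Ω = toPlane '' (f '' Metric.ball 0 1) ∧
    (∀ z ∈ Metric.ball (0 : ℂ) r, ‖f z - ρ * z‖ ≤ η ∧ ‖deriv f z - ρ‖ ≤ η * ρ) ∧
    ∀ z w : ℂ, ‖z‖ ≤ 1 → ‖w‖ ≤ 1 → ‖deriv f z - deriv f w‖ ≤ 300 * η * ρ ^ 2 * ‖z - w‖
  inner : Metric.ball 0 (ρ - η) ⊆ Ω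
  outer : Ω ⊆ Metric.ball 0 (ρ + η)

/-- The symmetry group of `Ω` (all isometries of the plane which preserve `Ω`) is the dihedral group of
order `2 n` generated by the rotation about `0` by `2 π / n` and the reflection in the real axis:
an isometry `σ` preserves `Ω` exactly if `σ z = ω z` or `σ z = ω z̄` with `ω ^ n = 1`. -/
def DihedralSymmetry (n : ℕ) (Ω : Set Plane) : Prop :=
  ∃ D : Set ℂ, Ω = toPlane '' D ∧ ∀ σ : ℂ ≃ᵢ ℂ, σ '' D = D ↔
    ∃ ω : ℂ, ω ^ n = 1 ∧ ((∀ z, σ z = ω * z) ∨ ∀ z, σ z = ω * (starRingEnd ℂ) z)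

private theorem conv_dom {Ω : Set Plane} (h : Pool.Agent.H812.SF.PlaneDomain Ω) :
    PlaneDomain Ω := ⟨h.1, h.2, h.3, h.4, h.5, h.6⟩

private theorem conv {η ρ : ℝ} {Ω : Set Plane} (h : Pool.Agent.H812.SF.Ctr η ρ Ω) :
    Counterexample Ω ∧ NearDisc η ρ Ω := by
  obtain ⟨h1, h2, h2', h3, ⟨r, f, g1, g2, g3, g4, g5, g6⟩, h5, h6⟩ := h
  exact ⟨⟨conv_dom h1, h2, h3, h2'⟩, ⟨r, f, g1, g2, g3, g6, g4, g5⟩, h5, h6⟩

private theorem not_congruent {η ρ ρ' : ℝ} {Ω Ω' : Set Plane} (h1 : NearDisc η ρ Ω)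
    (h2 : NearDisc η ρ' Ω') (h : ρ + η < ρ' - η) (h0 : 0 < ρ + η) (σ : Plane ≃ᵢ Plane) :
    σ '' Ω ≠ Ω' := by
  intro he
  obtain ⟨t, ht1, ht2⟩ := exists_between h
  obtain ⟨e, he1⟩ : ∃ e : Plane, ‖e‖ = 1 := ⟨EuclideanSpace.single 0 1, by simp⟩
  have hn : ‖t • e‖ = t := by
    rw [norm_smul, he1, mul_one, Real.norm_eq_abs, abs_of_pos (by linarith)]
  have hp : t • e ∈ σ '' Ω := by
    rw [he]
    exact h2.inner (by rw [mem_ball_zero_iff, hn]; exact ht2)
  have hm : -(t • e) ∈ σ '' Ω := by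
    rw [he]
    exact h2.inner (by rw [mem_ball_zero_iff, norm_neg, hn]; exact ht2)
  obtain ⟨x, hx, hx'⟩ := hp
  obtain ⟨y, hy, hy'⟩ := hm
  have hd : dist (t • e) (-(t • e)) = 2 * t := by
    rw [dist_eq_norm, sub_neg_eq_add, ← two_smul ℝ, norm_smul, hn]
    norm_num
  rw [← hy', ← hx', σ.isometry.dist_eq] at hd
  have h3 := mem_ball_zero_iff.1 (h1.outer hx)
  have h4 := mem_ball_zero_iff.1 (h1.outer hy)
  have h5 := dist_le_norm_add_norm x y
  linarith

/-- **Every dihedral group of order `2 n`, `n ≥ 10 ^ 24`, is the symmetry group of counterexamples to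
Schiffer's conjecture at distance `η` from at least `η ^ 4 n / 10 ^ 16` different discs, for every
`η ≥ 4000 / n ^ (1/4)`.** -/
theorem result (n : ℕ) (hn : 10 ^ 24 ≤ n) (η : ℝ) (hη : 4000 / (n : ℝ) ^ (1 / 4 : ℝ) ≤ η)
    (hη' : η ≤ 1 / 200) :
    ∃ (ρ : ℕ → ℝ) (Ω : ℕ → Set Plane),
      (∀ k : ℕ, (k : ℝ) ≤ η ^ 4 * n / 10 ^ 16 → J 1 (ρ k) = 0 ∧ 4 / 5 * ρ k ≤ n ∧
        n ≤ 41 / 50 * ρ k ∧ Counterexample (Ω k) ∧ NearDisc η (ρ k) (Ω k) ∧
        DihedralSymmetry n (Ω k)) ∧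
      ∀ j k : ℕ, j < k → (k : ℝ) ≤ η ^ 4 * n / 10 ^ 16 → ρ j + 100 ≤ ρ k ∧
        ∀ σ : Plane ≃ᵢ Plane, σ '' Ω j ≠ Ω k := by
  obtain ⟨ρ, D, h1, h2⟩ := Pool.Agent.H812.SO.pORD3 n η hn hη hη'
  have hη0 : 0 < η := lt_of_lt_of_le (by
    have : (0 : ℝ) < n := by exact_mod_cast lt_of_lt_of_le (by norm_num) hn
    positivity) hη
  have key : ∀ k : ℕ, (k : ℝ) ≤ η ^ 4 * n / 10 ^ 16 → J 1 (ρ k) = 0 ∧ 4 / 5 * ρ k ≤ n ∧
      n ≤ 41 / 50 * ρ k ∧ Counterexample (toPlane '' D k) ∧ NearDisc η (ρ k) (toPlane '' D k) ∧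
      DihedralSymmetry n (toPlane '' D k) := by
    intro k hk
    obtain ⟨a1, a2, a3, a4, a5⟩ := h1 k hk
    exact ⟨a3, a1, a2, (conv a5).1, (conv a5).2, D k, rfl, a4⟩
  refine ⟨ρ, fun k => toPlane '' D k, key, fun j k hjk hk => ⟨h2 j k hjk hk, fun σ => ?_⟩⟩
  have hj : (j : ℝ) ≤ η ^ 4 * n / 10 ^ 16 := le_trans (by exact_mod_cast hjk.le) hk
  have h3 := (key j hj).2.2.1
  have h4 : (0 : ℝ) ≤ n := Nat.cast_nonneg n
  exact not_congruent (key j hj).2.2.2.2.1 (key k hk).2.2.2.2.1 (by linarith [h2 j k hjk hk])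
    (by linarith) σ

end Pool.Agent.Results.MP_83fd13_an.SymmetryGroups
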